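import Pool.Agent.Helper64.DT.Defs

/-! Diamond-free circle graphs (MP_866009_co): statements of the modules. -/

set_option autoImplicit false

namespace Pool.Agent.Helper64.DT

open Pool.Agent.Helper64.CT
open Pool.Agent.Helper64.HG (Ovl Model Circ IC HellyCircle ChordModel)

/-! ### Prime graphs -/

def ST_AT2 : Prop := ∀ (V : Type) (G : SimpleGraph V), Prime G → ∀ c z y n, z ∈ Far G c →
  y ∈ Far G c → ¬ Comp G c z y → n ∈ Att G c z → ∃ n' ∈ Att G c z, n' ≠ n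

def ST_SNG : Prop := ∀ (V : Type) (G : SimpleGraph V), G.Preconnected → Prime G →
  ∀ c z, z ∈ Far G c → (∀ u, Comp G c z u → ¬ Mixed G u (Att G c z)) →
    ∀ u, Comp G c z u → u = z

/-- a cluster below another component has an attachment in a clique that it does not cover -/
def ST_BLW : Prop := ∀ (V : Type) (G : SimpleGraph V), G.Preconnected → Prime G →
  ∀ c x y, x ∈ Far G c → y ∈ Far G c → Le G c x y → ¬ Clu G c x y →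
    ∃ z p q, Clu G c x z ∧ p ∈ Att G c z ∧ G.Adj c q ∧ G.Adj p q ∧
      ∀ w, Clu G c x w → q ∉ Att G c w

/-! ### Two nonadjacent vertices -/

def ST_D1 : Prop := ∀ (V : Type) (G : SimpleGraph V) (s : V → V → Bool), DF G → CI G → Sys G s →
  TrS G s → ∀ a c y a', a ∈ Far G c → Alpha G a c y → Comp G c a a' → Mixed G a' (Att G c y) →
    s a y = s a c

def ST_D2P : Prop := ∀ (V : Type) (G : SimpleGraph V) (s : V → V → Bool), Sys G s →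
  ∀ a c y z, a ∈ Far G c → Alpha G a c y → Lam G a c y z →
    Alpha G a c z ∧ (s a y = s a z ↔ s c y = s c z)

def ST_D2S : Prop := ∀ (V : Type) (G : SimpleGraph V), G.Preconnected → Prime G → DF G →
  ∀ a c y, a ∈ Far G c → Alpha G a c y → (∀ z, Lam G a c y z → ¬ Conf G c z a) →
    (∀ z, Lam G a c y z → ¬ Conf G a z c) → (∀ z, Comp G c y z → z = y) ∧
      ((Att G a c = Att G c y ∧ ∃ u, Comp G a c u ∧ Mixed G u (Att G c y)) ∨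
        (Att G c a = Att G c y ∧ ∃ u, Comp G c a u ∧ Mixed G u (Att G c y)))

def ST_D2 : Prop := ∀ (V : Type) (G : SimpleGraph V) (s : V → V → Bool), G.Preconnected →
  Prime G → DF G → CI G → Sys G s → TrS G s → ∀ a c y, a ∈ Far G c → Alpha G a c y →
    ¬ (s a y ≠ s a c ∧ s c y ≠ s c a) ∧
    (s a y = s a c → s c y = s c a → (∀ z, Comp G c y z → z = y) ∧
      (Att G a c = Att G c y ∨ Att G c a = Att G c y))

/-! ### Three neighbours of a vertex -/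

def ST_D3A : Prop := ∀ (V : Type) (G : SimpleGraph V) (s : V → V → Bool), G.Preconnected →
  Prime G → DF G → CI G → Sys G s → TrS G s → ∀ x a b c, G.Adj x a → G.Adj x b → G.Adj x c →
    a ≠ b → a ≠ c → b ≠ c → ¬ G.Adj a b → ¬ G.Adj a c → ¬ G.Adj b c →
    s c a ≠ s c b → s a b ≠ s a c → False

def ST_D3C : Prop := ∀ (V : Type) (G : SimpleGraph V) (x a b c : V), G.Adj x a → G.Adj x b →
  G.Adj x c → a ≠ b → a ≠ c → b ≠ c → ¬ G.Adj a b → ¬ G.Adj a c → ¬ G.Adj b c →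
    ¬ Comp G c a b → Comp G a b c → Comp G b a c → Conf G c a b

def ST_D3D : Prop := ∀ (V : Type) (G : SimpleGraph V) (s : V → V → Bool), G.Preconnected →
  Prime G → DF G → CI G → Sys G s → TrS G s → ∀ x a b c, G.Adj x a → G.Adj x b → G.Adj x c →
    a ≠ b → a ≠ c → b ≠ c → ¬ G.Adj a b → ¬ G.Adj a c → ¬ G.Adj b c →
    ¬ Comp G c a b → ¬ Comp G a b c → s c a = s c b → s a b = s a c → s b a = s b c → False

def ST_D3 : Prop := ∀ (V : Type) (G : SimpleGraph V) (s : V → V → Bool), G.Preconnected →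
  Prime G → DF G → CI G → Sys G s → TrS G s → S2 G s

/-! ### Balanced signed relations -/

/-- a signed relation has a potential, or it has a loop of odd sign, two signs for one pair, or a
minimal (induced) odd closed walk -/
def ST_BAL : Prop := ∀ (α : Type) (E : α → α → Bool → Prop), (∀ u v b, E u v b → E v u b) →
  (∃ f : α → Bool, ∀ u v b, E u v b → xor (f u) (f v) = b) ∨ (∃ u, E u u true) ∨
  (∃ u v, E u v true ∧ E u v false) ∨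
  ∃ (t : ℕ) (y : ℕ → α) (b : ℕ → Bool), 3 ≤ t ∧ (∀ i, y (i + t) = y i) ∧
    (∀ i, b (i + t) = b i) ∧ (∀ i, E (y i) (y (i + 1)) (b i)) ∧
    Odd ((Finset.range t).filter (fun i => b i = true)).card ∧
    (∀ g : α → Bool, ∃ i < t, b i ≠ xor (g (y i)) (g (y (i + 1)))) ∧
    (∀ i, y i ≠ y (i + 1)) ∧
    (∀ i j, i + 2 ≤ j → j + 2 ≤ i + t → y i ≠ y j ∧ ∀ b', ¬ E (y i) (y j) b')

/-! ### Gluing the colourings of the cliques at one vertex -/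

def ST_HRQ : Prop := ∀ (V : Type) (G : SimpleGraph V), DF G → Prime G →
  ∀ (Q : Set V) (θ : V → ℕ) (σ : V → Bool) (t : V → V → Bool), MaxC G Q → Big Q → CD G Q θ σ t →
  ∀ x ∈ Q, ∀ u v, u ∈ Far G x → v ∈ Far G x → ¬ Comp G x u v → Le G x u v → Tch G x Q u →
    t x u = t x v

def ST_OPQ : Prop := ∀ (V : Type) (G : SimpleGraph V), DF G →
  ∀ (Q : Set V) (θ : V → ℕ) (σ : V → Bool) (t : V → V → Bool), MaxC G Q → CD G Q θ σ t →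
  ∀ x ∈ Q, ∀ u v n n', u ∈ Far G x → v ∈ Far G x → Tch G x Q u → Tch G x Q v →
    (∀ m, m ∈ Att G x u → m ∉ Att G x v) → n ∈ Att G x u → n' ∈ Att G x v → n ∉ Q → n' ∉ Q →
    G.Adj n n' → t x u ≠ t x v

def ST_SGN : Prop := ∀ (V : Type) (G : SimpleGraph V), DF G → Prime G →
  ∀ Dθ Dσ Dt, Dat G Dθ Dσ Dt → ∀ x u v,
    ¬ (Es G Dt x u v true ∧ Es G Dt x u v false) ∧ ¬ Es G Dt x u u true

/-- linking two cliques at `x` through a component -/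
def ST_LNK : Prop := ∀ (V : Type) (G : SimpleGraph V), DF G → ∀ x w a b c a' b' : V,
  w ∈ Far G x → a' ∈ Att G x w → b' ∈ Att G x w → (a = a' ∨ G.Adj a a') →
  (b = b' ∨ G.Adj b b') → G.Adj x a → G.Adj x b → G.Adj x c → c ≠ a → c ≠ b → ¬ G.Adj c a →
  ¬ G.Adj c b → c ∉ Att G x w → Comp G c a b

def ST_LMX : Prop := ∀ (V : Type) (G : SimpleGraph V), DF G → Prime G →
  (∀ z, ∃ s, PropC G z s) → ∀ (x y : V) (t : V → Bool), PropC G x t → y ∈ Far G x →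
  ∀ (m : ℕ) (z : ℕ → V), 1 ≤ m → (∀ i < m, Conf G x (z i) (z (i + 1))) →
    (∀ i ≤ m, Le G x (z i) y) → (∀ i ≤ m, ¬ Comp G x (z i) y) →
    (∃ p q, p ∈ Att G x (z 0) ∧ G.Adj x q ∧ G.Adj p q ∧ q ∉ Att G x (z 0)) →
    (∃ p q, p ∈ Att G x (z m) ∧ G.Adj x q ∧ G.Adj p q ∧ q ∉ Att G x (z m)) → t (z 0) = t (z m)

def ST_CY3 : Prop := ∀ (V : Type) (G : SimpleGraph V), DF G → Prime G → CI G →
  ∀ Dθ Dσ Dt, Dat G Dθ Dσ Dt → ∀ x y0 y1 y2 b0 b1 b2, Es G Dt x y0 y1 b0 → Es G Dt x y1 y2 b1 →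
    Es G Dt x y2 y0 b2 → xor (xor b0 b1) b2 = true → False

def ST_CY4 : Prop := ∀ (V : Type) (G : SimpleGraph V), DF G → Prime G → CI G →
  ∀ Dθ Dσ Dt, Dat G Dθ Dσ Dt → ∀ (x : V) (t : ℕ) (y : ℕ → V) (b : ℕ → Bool), 4 ≤ t →
    (∀ i, y (i + t) = y i) → (∀ i, b (i + t) = b i) → (∀ i, Es G Dt x (y i) (y (i + 1)) (b i)) →
    (∀ g : V → Bool, ∃ i < t, b i ≠ xor (g (y i)) (g (y (i + 1)))) →
    (∀ i j, i + 2 ≤ j → j + 2 ≤ i + t → ∀ b', ¬ Es G Dt x (y i) (y j) b') → False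

def ST_GLU : Prop := ∀ (V : Type) (G : SimpleGraph V), DF G → Prime G → CI G →
  ∀ Dθ Dσ Dt, Dat G Dθ Dσ Dt → ∀ x : V, ∃ f : V → Bool, (∀ y z, Comp G x y z → f y = f z) ∧
    (∀ y z, Conf G x y z → f y ≠ f z) ∧ ∀ Q, MaxC G Q → Big Q → x ∈ Q →
      ∃ κ : Bool, ∀ u ∈ Far G x, Tch G x Q u → f u = xor (Dt Q x u) κ

def ST_SEX : Prop := ∀ (V : Type) (G : SimpleGraph V), DF G → Prime G → CI G →
  (∀ Q, MaxC G Q → CQ G Q) → ∃ s, Sys G s ∧ TrS G s ∧ ∀ Q, MaxC G Q → ∃ θ σ κ, SQ G s Q θ σ κ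

/-! ### From sides to a Naji type system -/

def ST_GN : Prop := ∀ (V : Type) (G : SimpleGraph V) (s : V → V → Bool)
  (Dθ : Set V → V → ℕ) (Dσ Dκ : Set V → V → Bool), DF G → S1 G s → S2 G s →
  (∀ Q, MaxC G Q → SQ G s Q (Dθ Q) (Dσ Q) (Dκ Q)) → ∀ n, ∃ g : V → Bool,
    (∀ v w, G.Adj n v → G.Adj n w → v ≠ w → ¬ G.Adj v w →
      xor (g v) (g w) = !(xor (s v w) (s w v))) ∧
    (∀ Q, MaxC G Q → n ∈ Q → ∀ v ∈ Q, ∀ w ∈ Q, v ≠ n → w ≠ n →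
      xor (g v) (g w) = xor (xor (decide (Dθ Q n < Dθ Q v)) (Dκ Q v))
        (xor (decide (Dθ Q n < Dθ Q w)) (Dκ Q w)))

def ST_LAM : Prop := ∀ (V : Type) (G : SimpleGraph V) (s : V → V → Bool)
  (Dθ : Set V → V → ℕ) (Dσ Dκ : Set V → V → Bool) (g : V → V → Bool), DF G → S1 G s →
  (∀ Q, MaxC G Q → SQ G s Q (Dθ Q) (Dσ Q) (Dκ Q)) →
  (∀ n v w, G.Adj n v → G.Adj n w → v ≠ w → ¬ G.Adj v w →
    xor (g n v) (g n w) = !(xor (s v w) (s w v))) →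
  (∀ n Q, MaxC G Q → n ∈ Q → ∀ v ∈ Q, ∀ w ∈ Q, v ≠ n → w ≠ n →
    xor (g n v) (g n w) = xor (xor (decide (Dθ Q n < Dθ Q v)) (Dκ Q v))
      (xor (decide (Dθ Q n < Dθ Q w)) (Dκ Q w))) →
  ∃ lam : V → Bool, ∀ u v, G.Adj u v → xor (lam u) (lam v) = !(xor (g u v) (g v u))

/-- tournaments given by an order and switching -/
def ST_N5O : Prop := ∀ (V : Type) (θ : V → ℕ) (κ : V → Bool) (δ : Bool) (b : V → V → Bool)
  (S : Set V), Set.InjOn θ S →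
  (∀ u ∈ S, ∀ v ∈ S, u ≠ v → b u v = xor (xor (κ u) (κ v)) (xor (decide (θ u < θ v)) δ)) →
  ∀ x ∈ S, ∀ y ∈ S, ∀ z ∈ S, ∀ w ∈ S, x ≠ y → y ≠ z → z ≠ x → w ≠ x → w ≠ y → w ≠ z →
    b x y = true → b y z = true → b z x = true → ¬ (b x w = b y w ∧ b y w = b z w)

def ST_NBX : Prop := ∀ (V : Type) (G : SimpleGraph V) (s : V → V → Bool), DF G → S1 G s →
  S2 G s → (∀ Q, MaxC G Q → ∃ θ σ κ, SQ G s Q θ σ κ) → ∃ b, NB G b

/-! ### Insertion of a chord -/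

/-- position lemma without assumption on triangles -/
def ST_PS2 : Prop := ∀ (V : Type) [Finite V] (G : SimpleGraph V) (T : Set V) (l r : V → ℝ)
  (τ : V → Prop), MOn G T l r →
  (∀ y ∈ T, ∀ y' ∈ T, y' ∈ Far G y → (τ y ↔ Ins l r y y') ∨ (τ y' ↔ Ins l r y' y)) →
  (∃ t : ℝ, (∀ y ∈ T, t ≠ l y ∧ t ≠ r y) ∧ ∀ y ∈ T, (InP l r y t ↔ τ y)) ∨
  (∃ y1 ∈ T, ∃ y2 ∈ T, ∃ y3 ∈ T, G.Adj y1 y2 ∧ G.Adj y2 y3 ∧ G.Adj y3 y1 ∧
    ∀ t : ℝ, t ≠ l y1 → t ≠ r y1 → t ≠ l y2 → t ≠ r y2 → t ≠ l y3 → t ≠ r y3 →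
      ¬ ((InP l r y1 t ↔ τ y1) ∧ (InP l r y2 t ↔ τ y2) ∧ (InP l r y3 t ↔ τ y3))) ∨
  (∃ L : List V, IC G L ∧ 4 ≤ L.length ∧ (∀ y ∈ L, y ∈ T) ∧
    (∀ y ∈ L, ∀ y' ∈ L, y' ∈ Far G y → (τ y ↔ Ins l r y y')) ∧
    ∀ t : ℝ, (∀ y ∈ L, t ≠ l y ∧ t ≠ r y) → ∃ y ∈ L, ¬ (InP l r y t ↔ τ y))

def ST_GB1 : Prop := ∀ (V : Type) (G : SimpleGraph V) (T : Set V) (l r : V → ℝ) (w : V → Bool),
  MOn G T l r → ∀ x ∈ T, ∀ y ∈ T, G.Adj x y → bm l r w x y ≠ bm l r w y x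

def ST_GB2 : Prop := ∀ (V : Type) (G : SimpleGraph V) (T : Set V) (l r : V → ℝ) (w : V → Bool),
  MOn G T l r → (∀ c ∈ T, ∀ x ∈ T, x ∈ Far G c → (InP l r c (tl l r w x) ↔ Ins l r c x)) ∧
  ∀ c ∈ T, ∀ x ∈ T, ∀ y ∈ T, x ∈ Far G c → y ∈ Far G c → G.Adj x y →
    bm l r w c x = bm l r w c y

def ST_GB3 : Prop := ∀ (V : Type) (G : SimpleGraph V) (T : Set V) (l r : V → ℝ) (w : V → Bool),
  MOn G T l r → ∀ n ∈ T, ∀ v ∈ T, ∀ u ∈ T, G.Adj n v → G.Adj n u → v ≠ u → ¬ G.Adj v u →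
    xor (xor (bm l r w v u) (bm l r w u v)) (xor (bm l r w n v) (bm l r w n u)) = true

/-- sectors of three pairwise crossing chords -/
def ST_SEC : Prop := ∀ (V : Type) (G : SimpleGraph V) (T : Set V) (l r : V → ℝ) (w v : V → Bool),
  MOn G T l r → ∀ y1 ∈ T, ∀ y2 ∈ T, ∀ y3 ∈ T, G.Adj y1 y2 → G.Adj y2 y3 → G.Adj y3 y1 →
  (∀ t : ℝ, t ≠ l y1 → t ≠ r y1 → t ≠ l y2 → t ≠ r y2 → t ≠ l y3 → t ≠ r y3 →
    ¬ ((InP l r y1 t ↔ v y1 = w y1) ∧ (InP l r y2 t ↔ v y2 = w y2) ∧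
      (InP l r y3 t ↔ v y3 = w y3))) →
  (bm l r w y1 y2 = bm l r w y2 y3 ∧ bm l r w y2 y3 = bm l r w y3 y1 ∧ v y1 = v y2 ∧
    v y2 = v y3) ∨
  ∃ i j k, ((i = y1 ∧ j = y2 ∧ k = y3) ∨ (i = y1 ∧ j = y3 ∧ k = y2) ∨ (i = y2 ∧ j = y1 ∧ k = y3) ∨
    (i = y2 ∧ j = y3 ∧ k = y1) ∨ (i = y3 ∧ j = y1 ∧ k = y2) ∨ (i = y3 ∧ j = y2 ∧ k = y1)) ∧
    bm l r w i j = v j ∧ v i ≠ v j ∧ bm l r w i k = bm l r w j k ∧ bm l r w i k ≠ v k

def ST_REV : Prop := ∀ (V : Type) (G : SimpleGraph V) (b : V → V → Bool) (z : V), NB G b →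
  NB G (rev G b z)

def ST_CPB : Prop := ∀ (V : Type) (G : SimpleGraph V) (b : V → V → Bool) (T : Set V) (z : V)
  (l r : V → ℝ) (w : V → Bool), DF G → NB G b → z ∉ T → MOn G T l r → RB T l r w b →
  (∃ p ∈ T, G.Adj z p) → ∀ y ∈ T, ∀ y' ∈ T, y' ∈ Far G y → b y z = b y y' ∨ b y' z = b y' y

def ST_TRB : Prop := ∀ (V : Type) (G : SimpleGraph V) (b : V → V → Bool) (T : Set V) (z : V)
  (l r : V → ℝ) (w : V → Bool), DF G → NB G b → z ∉ T → MOn G T l r → RB T l r w b →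
  (∃ p ∈ T, G.Adj z p) → ∀ y1 ∈ T, ∀ y2 ∈ T, ∀ y3 ∈ T, G.Adj y1 y2 → G.Adj y2 y3 →
  G.Adj y3 y1 →
  (∀ t : ℝ, t ≠ l y1 → t ≠ r y1 → t ≠ l y2 → t ≠ r y2 → t ≠ l y3 → t ≠ r y3 →
    ¬ ((InP l r y1 t ↔ b y1 z = w y1) ∧ (InP l r y2 t ↔ b y2 z = w y2) ∧
      (InP l r y3 t ↔ b y3 z = w y3))) → False

def ST_CYB : Prop := ∀ (V : Type) (G : SimpleGraph V) (b : V → V → Bool) (T : Set V) (z : V)
  (l r : V → ℝ) (w : V → Bool) (L : List V), DF G → NB G b → z ∉ T → MOn G T l r →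
  RB T l r w b → (∃ p ∈ T, G.Adj z p) → IC G L → 4 ≤ L.length → (∀ y ∈ L, y ∈ T) →
  (∀ y ∈ L, ∀ y' ∈ L, y' ∈ Far G y → b y z = b y y') →
  (∀ t : ℝ, (∀ y ∈ L, t ≠ l y ∧ t ≠ r y) → ∃ y ∈ L, ¬ (InP l r y t ↔ b y z = w y)) → False

def ST_TLB : Prop := ∀ (V : Type) [Finite V] (G : SimpleGraph V) (b : V → V → Bool) (T : Set V)
  (z : V) (l r : V → ℝ) (w : V → Bool), DF G → NB G b → z ∉ T → MOn G T l r → RB T l r w b →
  (∃ p ∈ T, G.Adj z p) →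
  ∃ t : ℝ, (∀ y ∈ T, t ≠ l y ∧ t ≠ r y) ∧ ∀ y ∈ T, (InP l r y t ↔ b y z = w y)

def ST_RZB : Prop := ∀ (V : Type) (G : SimpleGraph V) (b : V → V → Bool) (T : Set V) (z : V)
  (l r : V → ℝ) (w : V → Bool), NB G b → z ∉ T → (G.induce T).Preconnected →
  (∃ p ∈ T, G.Adj z p) → MOn G (insert z T) l r →
  (∀ y ∈ T, ∀ x ∈ insert z T, x ≠ y → b y x = bm l r w y x) →
  ∀ x ∈ T, b z x = bm l r w z x

def ST_STB : Prop := ∀ (V : Type) [Finite V] (G : SimpleGraph V) (b : V → V → Bool) (T : Set V)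
  (z : V) (l r : V → ℝ) (w : V → Bool), DF G → NB G b → z ∉ T → (G.induce T).Preconnected →
  (∃ p ∈ T, G.Adj z p) → MOn G T l r → RB T l r w b →
  ∃ (l' r' : V → ℝ) (w' : V → Bool), MOn G (insert z T) l' r' ∧ RB (insert z T) l' r' w' b

def ST_SNB : Prop := ∀ (V : Type) [Finite V] (G : SimpleGraph V) (b : V → V → Bool),
  G.Preconnected → DF G → NB G b → Circ G

/-! ### Heredity and necessity -/

def ST_HR2 : Prop := ∀ (V : Type) [Finite V] (G : SimpleGraph V) (S : Set V),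
  (∀ x y z : S, Comp G x.1 y.1 z.1 → Comp (G.induce S) x y z) → (∀ Q, MaxC G Q → CQ G Q) →
  ∀ Q, MaxC (G.induce S) Q → CQ (G.induce S) Q

def ST_GE2 : Prop := ∀ (V : Type) (G : SimpleGraph V) (S : Set V) (l r : V → ℝ), MOn G S l r →
  ∀ a ∈ S, ∀ b ∈ S, ∀ c ∈ S, a ∈ Far G b → a ∈ Far G c → b ∈ Far G c →
    ¬ (¬ (Ins l r b a ↔ Ins l r b c) ∧ ¬ (Ins l r c a ↔ Ins l r c b))

def ST_CFM : Prop := ∀ (V : Type) (G : SimpleGraph V) (l r : V → ℝ), Model G l r →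
  ∀ y u w, Conf G y u w → ¬ (Ins l r y u ↔ Ins l r y w)

def ST_NCQ : Prop := ∀ (V : Type) [Finite V] (G : SimpleGraph V), DF G → Circ G →
  ∀ Q, MaxC G Q → CQ G Q

/-! ### The result -/

def ST_PRD : Prop := ∀ (V : Type) [Finite V] (G : SimpleGraph V), G.Preconnected → Prime G →
  DF G → CI G → (∀ Q, MaxC G Q → CQ G Q) → Circ G

def ST_MND : Prop := ∀ (V : Type) [Finite V] (G : SimpleGraph V), DF G → CI G →
  (∀ Q, MaxC G Q → CQ G Q) → Circ G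

def ST_RSD : Prop := ∀ (V : Type) [Finite V] (G : SimpleGraph V), DF G →
  (Nonempty (ChordModel G) ↔ CI G ∧ ∀ Q, MaxC G Q → CQ G Q)

end Pool.Agent.Helper64.DT
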