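import Pool.Agent.Helper64.DT.Pub
import Pool.Agent.Helper64.CT.Stmts

/-! Diamond-free circle graphs (MP_866009_co): definitions and basic lemmas. -/

set_option autoImplicit false

namespace Pool.Agent.Helper64.DT

open Pool.Agent.Helper64.CT
open Pool.Agent.Helper64.HG (Ovl Model Circ IC HellyCircle ChordModel)

variable {V : Type}

/-- at least three elements -/
def Big (Q : Set V) : Prop := ∀ x y : V, ∃ z ∈ Q, z ≠ x ∧ z ≠ y

/-- the component of `u` in `G - N[x]` has an attachment in `Q` -/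
def Tch (G : SimpleGraph V) (x : V) (Q : Set V) (u : V) : Prop := ∃ p ∈ Q, p ∈ Att G x u

/-- transfer of sides: for a triangle `x p q` and neighbours `a`, `b` of `q` -/
def TrS (G : SimpleGraph V) (s : V → V → Bool) : Prop :=
  ∀ x p q a b, G.Adj x p → G.Adj x q → G.Adj p q → G.Adj q a → G.Adj q b →
    a ∈ Far G x → a ∈ Far G p → b ∈ Far G x → b ∈ Far G p → (s x a = s x b ↔ s p a = s p b)

/-- `s`, `θ`, `σ`, `κ` fit together at the clique `Q` -/
def SQ (G : SimpleGraph V) (s : V → V → Bool) (Q : Set V) (θ : V → ℕ) (σ κ : V → Bool) : Prop :=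
  Set.InjOn θ Q ∧ ∀ y ∈ Q, ∀ x ∈ Q, x ≠ y → ∀ u, G.Adj x u → u ∉ Q →
    s y u = xor (σ u) (xor (decide (θ x < θ y)) (κ y))

/-- exactly one of three pairwise nonadjacent neighbours of a vertex separates the other two -/
def S2 (G : SimpleGraph V) (s : V → V → Bool) : Prop :=
  ∀ n a b c, G.Adj n a → G.Adj n b → G.Adj n c → a ≠ b → a ≠ c → b ≠ c →
    ¬ G.Adj a b → ¬ G.Adj a c → ¬ G.Adj b c →
    Ex1 (s c a ≠ s c b) (s a b ≠ s a c) (s b a ≠ s b c)

/-- `s c` is constant on components of `G - N[c]` -/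
def S1 (G : SimpleGraph V) (s : V → V → Bool) : Prop :=
  ∀ c x y, x ∈ Far G c → y ∈ Far G c → G.Adj x y → s c x = s c y

/-- steps inside the components of type `Alpha` -/
def Lam (G : SimpleGraph V) (a c : V) : V → V → Prop :=
  Relation.ReflTransGen (fun u w => Alpha G a c w ∧ (Comp G c u w ∨ Conf G c u w))

/-- clique data for all maximal cliques -/
def Dat (G : SimpleGraph V) (Dθ : Set V → V → ℕ) (Dσ : Set V → V → Bool)
    (Dt : Set V → V → V → Bool) : Prop := ∀ Q, MaxC G Q → CD G Q (Dθ Q) (Dσ Q) (Dt Q)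

/-- `u` and `v` (far from `x`) are in a known relation of sign `b` (`true` means opposite sides) -/
def Es (G : SimpleGraph V) (Dt : Set V → V → V → Bool) (x u v : V) (b : Bool) : Prop :=
  u ∈ Far G x ∧ v ∈ Far G x ∧ ((Comp G x u v ∧ b = false) ∨ (Conf G x u v ∧ b = true) ∨
    ∃ Q, MaxC G Q ∧ Big Q ∧ x ∈ Q ∧ Tch G x Q u ∧ Tch G x Q v ∧ b = xor (Dt Q x u) (Dt Q x v))

/-! ### Naji type systems -/

/-- `b y x` tells on which side of the oriented chord `y` the tail of `x` lies -/
structure NB (G : SimpleGraph V) (b : V → V → Bool) : Prop where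
  n1 : ∀ x y, G.Adj x y → b x y ≠ b y x
  n2 : ∀ c x y, x ∈ Far G c → y ∈ Far G c → G.Adj x y → b c x = b c y
  n3 : ∀ n v w, G.Adj n v → G.Adj n w → v ≠ w → ¬ G.Adj v w →
    xor (xor (b v w) (b w v)) (xor (b n v) (b n w)) = true
  n4 : ∀ n a c d, G.Adj n a → G.Adj n c → G.Adj n d → a ≠ c → a ≠ d → c ≠ d → ¬ G.Adj a c →
    ¬ G.Adj a d → ¬ G.Adj c d → ¬ (b a c ≠ b a d ∧ b c a ≠ b c d ∧ b d a ≠ b d c)
  n5 : ∀ x y z w, G.Adj x y → G.Adj y z → G.Adj z x → G.Adj w x → G.Adj w y → G.Adj w z →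
    b x y = true → b y z = true → b z x = true → ¬ (b x w = b y w ∧ b y w = b z w)

/-- the tail of `x` -/
noncomputable def tl (l r : V → ℝ) (w : V → Bool) (x : V) : ℝ := if w x = true then l x else r x

/-- the position `t` is inside `y` -/
def InP (l r : V → ℝ) (y : V) (t : ℝ) : Prop := l y < t ∧ t < r y

open Classical in
/-- the values `b y x` of an oriented model -/
noncomputable def bm (l r : V → ℝ) (w : V → Bool) (y x : V) : Bool :=
  if InP l r y (tl l r w x) then w y else !(w y)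

/-- the oriented model realizes `b` on `T` -/
def RB (T : Set V) (l r : V → ℝ) (w : V → Bool) (b : V → V → Bool) : Prop :=
  ∀ y ∈ T, ∀ x ∈ T, x ≠ y → b y x = bm l r w y x

open Classical in
/-- reversing the orientation of `z` -/
noncomputable def rev (G : SimpleGraph V) (b : V → V → Bool) (z y x : V) : Bool :=
  if y = z then !(b y x) else if x = z ∧ G.Adj y z then !(b y x) else b y x

/-! ### Basic lemmas -/

theorem PropC_of_Sys {G : SimpleGraph V} {s : V → V → Bool} (h : Sys G s) (x : V) :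
    PropC G x (s x) := h x

/-- two neighbours of `x` adjacent to a common neighbour of `x` are adjacent or equal -/
theorem DF.tr {G : SimpleGraph V} (h : DF G) {x p q r : V} (hp : G.Adj x p) (hq : G.Adj x q)
    (hr : G.Adj x r) (hpq : G.Adj p q) (hqr : G.Adj q r) : p = r ∨ G.Adj p r := by
  by_cases e : p = r
  · exact Or.inl e
  · exact Or.inr (h x q p r hq hp hpq.symm hr hqr e)

/-- a vertex far from `x` has at most one neighbour in each clique at `x` -/
theorem DF.far {G : SimpleGraph V} (h : DF G) {x p q u : V} (hp : G.Adj x p) (hq : G.Adj x q)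
    (hpq : G.Adj p q) (hu : u ∈ Far G x) (hup : G.Adj u p) : ¬ G.Adj u q := by
  intro huq
  exact hu.2 (h p q x u hpq hp.symm hq.symm hup.symm huq.symm (fun e => hu.1 e.symm))

/-- a vertex outside a maximal clique with a neighbour in it is not adjacent to the rest -/
theorem MaxC.out {G : SimpleGraph V} (h : DF G) {Q : Set V} (hQ : MaxC G Q) {x y u : V}
    (hx : x ∈ Q) (hy : y ∈ Q) (hxy : x ≠ y) (hu : u ∉ Q) (hxu : G.Adj x u) : u ∈ Far G y := by
  refine ⟨fun e => hu (e ▸ hy), fun hyu => hu (hQ.2 u ?_)⟩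
  intro q hq hqu
  by_cases e1 : q = x
  · rw [e1]; exact hxu.symm
  by_cases e2 : q = y
  · rw [e2]; exact hyu.symm
  exact (h x y q u (hQ.1 x hx y hy hxy) (hQ.1 x hx q hq (fun e => e1 e.symm))
    (hQ.1 y hy q hq (fun e => e2 e.symm)) hxu hyu hqu).symm

/-- every edge lies in a maximal clique -/
theorem exists_MaxC {G : SimpleGraph V} (h : DF G) {x p : V} (hxp : G.Adj x p) :
    MaxC G {u | u = x ∨ u = p ∨ (G.Adj x u ∧ G.Adj p u)} := by
  constructor
  · rintro a (rfl | rfl | ⟨ha1, ha2⟩) b (rfl | rfl | ⟨hb1, hb2⟩) hab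
    · exact absurd rfl hab
    · exact hxp
    · exact hb1
    · exact hxp.symm
    · exact absurd rfl hab
    · exact hb2
    · exact ha1.symm
    · exact ha2.symm
    · exact h x p a b hxp ha1 ha2 hb1 hb2 hab
  · intro z hz
    by_cases e1 : z = x
    · exact Or.inl e1
    by_cases e2 : z = p
    · exact Or.inr (Or.inl e2)
    exact Or.inr (Or.inr ⟨(hz x (Or.inl rfl) (fun e => e1 e.symm)).symm,
      (hz p (Or.inr (Or.inl rfl)) (fun e => e2 e.symm)).symm⟩)

end Pool.Agent.Helper64.DT
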