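import Pool.Agent.Helper64.DT.Stmts

set_option autoImplicit false

namespace Pool.Agent.Helper64.DT

open Pool.Agent.Helper64.CT
open Pool.Agent.Helper64.HG (Ovl Model Circ IC HellyCircle ChordModel)

theorem prd_adj {V : Type} {G : SimpleGraph V} {c x y : V} (hx : x ∈ Far G c) (hy : y ∈ Far G c)
    (h : G.Adj x y) : Comp G c x y :=
  ⟨hx, hy, SimpleGraph.Adj.reachable (by simpa using h)⟩

theorem st_PRD (hSEX : ST_SEX) (hD3 : ST_D3) (hNBX : ST_NBX) (hSNB : ST_SNB) : ST_PRD := by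
  intro V _ G hp hpr hD hI hQ
  obtain ⟨s, hs, ht, hq⟩ := hSEX V G hD hpr hI hQ
  have h2 : S2 G s := hD3 V G s hp hpr hD hI hs ht
  have h1 : S1 G s := fun c x y hx hy hxy => (hs c).1 x y (prd_adj hx hy hxy)
  obtain ⟨b, hb⟩ := hNBX V G s hD h1 h2 hq
  exact hSNB V G b hp hD hb

end Pool.Agent.Helper64.DT
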