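import Pool.Agent.Helper64.DT.Stmts
import Pool.Agent.Helper60.HG.GEO

set_option autoImplicit false

namespace Pool.Agent.Helper64.DT

open Pool.Agent.Helper64.CT
open Pool.Agent.Helper64.HG (Ovl Model Circ IC HellyCircle ChordModel geo_circ_of_helly
  geo_model_of_circ)

theorem st_RSD (hM : ST_MND) (hN : ST_NCQ) (h1 : CT.ST_GCI) : ST_RSD := by
  intro V _ G hD
  constructor
  · rintro ⟨M⟩
    have hc := geo_circ_of_helly M
    exact ⟨h1 V G hc, hN V G hD hc⟩
  · rintro ⟨a, b⟩
    exact geo_model_of_circ (hM V G hD a b)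

end Pool.Agent.Helper64.DT
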