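import Pool.Agent.Helper61.DT.AT2
import Pool.Agent.Helper67.DT.SNG
import Pool.Agent.Helper79.DT.BLW
import Pool.Agent.Helper86.DT.D1
import Pool.Agent.Helper42.DT.D2P
import Pool.Agent.Helper78.DT.D2S
import Pool.Agent.Helper42.DT.D2
import Pool.Agent.Helper47.DT.D3A
import Pool.Agent.Helper7.DT.D3C
import Pool.Agent.Helper72.DT.D3D
import Pool.Agent.Helper81.DT.D3
import Pool.Agent.Helper53.DT.BAL
import Pool.Agent.Helper15.DT.HRQ
import Pool.Agent.Helper58.DT.OPQ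
import Pool.Agent.Helper95.DT.SGN
import Pool.Agent.Helper11.DT.LNK
import Pool.Agent.Helper38.DT.LMX
import Pool.Agent.Helper24.DT.CY3
import Pool.Agent.Helper85.DT.CY4
import Pool.Agent.Helper13.DT.GLU
import Pool.Agent.Helper20.DT.SEX
import Pool.Agent.Helper41.DT.GN
import Pool.Agent.Helper83.DT.LAM
import Pool.Agent.Helper51.DT.N5O
import Pool.Agent.Helper41.DT.NBX
import Pool.Agent.Helper37.DT.PS2
import Pool.Agent.Helper82.DT.GB1
import Pool.Agent.Helper82.DT.GB2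
import Pool.Agent.Helper86.DT.GB3
import Pool.Agent.Helper4.DT.SEC
import Pool.Agent.Helper84.DT.REV
import Pool.Agent.Helper46.DT.CPB
import Pool.Agent.Helper35.DT.TRB
import Pool.Agent.Helper63.DT.CYB
import Pool.Agent.Helper25.DT.TLB
import Pool.Agent.Helper71.DT.RZB
import Pool.Agent.Helper45.DT.STB
import Pool.Agent.Helper2.DT.SNB
import Pool.Agent.Helper77.DT.HR2
import Pool.Agent.Helper49.DT.GE2
import Pool.Agent.Helper57.DT.CFM
import Pool.Agent.Helper68.DT.NCQ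
import Pool.Agent.Helper64.DT.PRD
import Pool.Agent.Helper64.DT.MND
import Pool.Agent.Helper64.DT.RSD
import Pool.Agent.Helper64.CT.FINAL

/-! Diamond-free circle graphs (MP_866009_co): the final theorem. -/

set_option autoImplicit false

namespace Pool.Agent.Helper64.DT

open Pool.Agent.Helper64.CT (st_ALS st_BET st_ATT st_CL2 st_SD1 st_CHN st_SD2 st_GCI st_SPG st_EX0
  st_EX1)

theorem final : ST_RSD := by
  have hSD2 : CT.ST_SD2 := st_SD2 st_SD1
  have hGEX : CT.ST_GEX := Pool.Agent.Helper63.CT.st_GEX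
  have hGCI : CT.ST_GCI := st_GCI hSD2 hGEX
  have hSNG : ST_SNG := st_SNG st_ATT
  have hBLW : ST_BLW := st_BLW st_ATT st_CL2
  have hD1 : ST_D1 := st_D1 st_ALS
  have hD2P : ST_D2P := st_D2P st_ALS
  have hD2S : ST_D2S := st_D2S st_ALS st_BET st_ATT hBLW st_AT2 hSNG
  have hD2 : ST_D2 := st_D2 st_ALS hD1 hD2P hD2S
  have hD3A : ST_D3A := st_D3A st_BET hD2
  have hD3C : ST_D3C := st_D3C st_ALS
  have hD3D : ST_D3D := st_D3D st_ALS st_BET hD2 hSNG
  have hD3 : ST_D3 := st_D3 hD3A hD3C hD3D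
  have hHRQ : ST_HRQ := st_HRQ st_AT2
  have hSGN : ST_SGN := st_SGN hHRQ st_OPQ
  have hLMX : ST_LMX := st_LMX st_ALS st_AT2
  have hCY3 : ST_CY3 := st_CY3 hSGN hHRQ st_LNK hLMX
  have hCY4 : ST_CY4 := Pool.Agent.Helper85.DTCY4.result hHRQ st_LNK hLMX
  have hGLU : ST_GLU := st_GLU st_BAL hSGN hCY3 hCY4
  have hSEX : ST_SEX := st_SEX hGLU
  have hLAM : ST_LAM := st_LAM st_BAL
  have hNBX : ST_NBX := st_NBX st_GN hLAM st_N5O
  have hPS2 : ST_PS2 := st_PS2 st_CHN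
  have hGB2 : ST_GB2 := st_GB2 st_SD1
  have hCPB : ST_CPB := st_CPB hGB2 st_GE2
  have hTRB : ST_TRB := st_TRB st_GB1 hGB2 st_SEC
  have hCYB : ST_CYB := st_CYB st_GB1 hGB2
  have hTLB : ST_TLB := st_TLB hPS2 hCPB hTRB hCYB hGB2
  have hRZB : ST_RZB := st_RZB st_GB1 hGB2 st_GB3
  have hSTB : ST_STB := st_STB hTLB st_REV hRZB hGB2
  have hSNB : ST_SNB := st_SNB hSTB
  have hCFM : ST_CFM := st_CFM st_SD1 hSD2 hGEX st_GE2
  have hNCQ : ST_NCQ := st_NCQ hCFM hSD2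
  have hPRD : ST_PRD := st_PRD hSEX hD3 hNBX hSNB
  have hMND : ST_MND := st_MND hPRD st_HR2
    (st_SPG Pool.Agent.Helper64.HG.st_ROT Pool.Agent.Helper64.HG.st_XFER) st_EX0 st_EX1
    Pool.Agent.Helper64.HG.st_GLUE0
  exact st_RSD hMND hNCQ hGCI

end Pool.Agent.Helper64.DT
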