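import Pool.Agent.Helper64.CT.Pub

/-! Diamond-free circle graphs (MP_866009_co): the notions in the statement. -/

set_option autoImplicit false

namespace Pool.Agent.Helper64.DT

open Pool.Agent.Helper64.CT

variable {V : Type}

/-- no induced diamond: any two common neighbours of two adjacent vertices are adjacent -/
def DF (G : SimpleGraph V) : Prop :=
  ∀ a b c d, G.Adj a b → G.Adj a c → G.Adj b c → G.Adj a d → G.Adj b d → c ≠ d → G.Adj c d

/-- `Q` is a maximal clique -/
def MaxC (G : SimpleGraph V) (Q : Set V) : Prop :=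
  (∀ x ∈ Q, ∀ y ∈ Q, x ≠ y → G.Adj x y) ∧ ∀ z, (∀ x ∈ Q, x ≠ z → G.Adj z x) → z ∈ Q

/-- `t` is a proper colouring at `x`: it is constant on the components of `G - N[x]` and different
on conflicting components -/
def PropC (G : SimpleGraph V) (x : V) (t : V → Bool) : Prop :=
  (∀ y z, Comp G x y z → t y = t z) ∧ ∀ y z, Conf G x y z → t y ≠ t z

/-- `Q`, `θ`, `σ`, `t` fit together: `θ` orders `Q`, `t y` is a proper colouring at `y` for every
`y ∈ Q`, and a neighbour `u ∉ Q` of `x ∈ Q` lies on the side of `y ∈ Q` given by the sign `σ u` and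
the order of `x` and `y` -/
def CD (G : SimpleGraph V) (Q : Set V) (θ : V → ℕ) (σ : V → Bool) (t : V → V → Bool) : Prop :=
  Set.InjOn θ Q ∧ ∀ y ∈ Q, PropC G y (t y) ∧
    ∀ x ∈ Q, x ≠ y → ∀ u, G.Adj x u → u ∉ Q → t y u = xor (σ u) (decide (θ x < θ y))

/-- the condition at the clique `Q` -/
def CQ (G : SimpleGraph V) (Q : Set V) : Prop :=
  ∃ (θ : V → ℕ) (σ : V → Bool) (t : V → V → Bool), CD G Q θ σ t

end Pool.Agent.Helper64.DT
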